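import Pool.Agent.Lib.MP_22634b_co.Limit

/-!
# `{0, 1, 2}` is canonically Ramsey: every space of large dimension, every scale, every set of
colours

The statement is the question of the problem (`E = ℝⁿ`, `l = 1`), for all spaces of dimension at
least one fixed `N`.
-/

set_option autoImplicit false

namespace Pool.Agent.Results.MP_22634b_co.EverySpaceEveryScale

open Cardinal

universe u v

/-- a Euclidean space has at most continuum many points -/
theorem exists_code (n : ℕ) : ∃ f : EuclideanSpace ℝ (Fin n) → ℝ, Function.Injective f := by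
  have h : #(EuclideanSpace ℝ (Fin n)) ≤ #ℝ := by
    have h1 : #(EuclideanSpace ℝ (Fin n)) = #(Fin n → ℝ) :=
      Cardinal.mk_congr (WithLp.equiv 2 (Fin n → ℝ))
    rw [h1, Cardinal.mk_pi, Cardinal.mk_real]
    simp only [Cardinal.prod_const, Cardinal.mk_fin, Cardinal.lift_natCast,
      Cardinal.lift_continuum]
    exact Cardinal.power_nat_le Cardinal.aleph0_le_continuum
  obtain ⟨f⟩ := h
  exact ⟨f, f.injective⟩

/-- a space of dimension at least `n` contains an isometric copy of the Euclidean space `ℝⁿ` -/
theorem exists_isometry {E : Type u} [NormedAddCommGroup E] [InnerProductSpace ℝ E] (n : ℕ)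
    (h : (n : Cardinal.{u}) ≤ Module.rank ℝ E) :
    Nonempty (EuclideanSpace ℝ (Fin n) →ₗᵢ[ℝ] E) := by
  obtain ⟨w, hw⟩ := exists_linearIndependent_of_le_rank h
  let S : Submodule ℝ E := Submodule.span ℝ (Set.range w)
  have hS : Module.finrank ℝ S = n := by
    have := finrank_span_eq_card hw
    simpa using this
  have : FiniteDimensional ℝ S := FiniteDimensional.span_of_finite ℝ (Set.finite_range w)
  exact ⟨S.subtypeₗᵢ.comp
    ((stdOrthonormalBasis ℝ S).reindex (finCongr hS)).repr.symm.toLinearIsometry⟩

/-- colours of any kind can be replaced by real numbers -/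
theorem exists_recolour {X : Type} {K : Type v} (f : X → ℝ) (hf : Function.Injective f)
    (c : X → K) : ∃ g : K → ℝ, ∀ x y, g (c x) = g (c y) ↔ c x = c y := by
  classical
  refine ⟨fun k => if h : ∃ z, c z = k then f h.choose else 0, fun x y => ?_⟩
  have hx : ∃ z, c z = c x := ⟨x, rfl⟩
  have hy : ∃ z, c z = c y := ⟨y, rfl⟩
  simp only [dif_pos hx, dif_pos hy]
  constructor
  · intro h
    rw [← hx.choose_spec, ← hy.choose_spec, hf h]
  · intro h
    have : ∀ k k' : K, k = k' → ∀ (p : ∃ z, c z = k) (q : ∃ z, c z = k'),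
        f p.choose = f q.choose := by
      rintro k _ rfl p q
      rfl
    exact this _ _ h _ _

/-- There is a dimension `N` such that every colouring, with any set `K` of colours, of any real
inner product space `E` of dimension at least `N` (finite or infinite) contains, for every `l > 0`,
three points `x`, `x + u`, `x + 2u` with `‖u‖ = l` which have all the same colour or three
different colours. -/
theorem result :
    ∃ N : ℕ, ∀ (E : Type u) [NormedAddCommGroup E] [InnerProductSpace ℝ E],
      (N : Cardinal.{u}) ≤ Module.rank ℝ E →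
      ∀ (K : Type v) (χ : E → K) (l : ℝ), 0 < l →
      ∃ x y : E, ‖y‖ = l ∧
        ((χ x = χ (x + y) ∧ χ (x + y) = χ (x + (2 : ℝ) • y)) ∨
          (χ x ≠ χ (x + y) ∧ χ (x + y) ≠ χ (x + (2 : ℝ) • y) ∧ χ x ≠ χ (x + (2 : ℝ) • y))) := by
  obtain ⟨N, hN⟩ := Pool.Agent.Lib.MP_22634b_co.main_theorem
  refine ⟨N, ?_⟩
  intro E _ _ hE K χ l hl
  obtain ⟨T⟩ := exists_isometry N hE
  obtain ⟨f, hf⟩ := exists_code N
  obtain ⟨g, hg⟩ := exists_recolour f hf (fun z => χ (l • T z))
  obtain ⟨a, b, c, hab, hbc, hac, hcol⟩ := hN (fun z => g (χ (l • T z)))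
  have hb : b = midpoint ℝ a c :=
    eq_midpoint_of_dist_eq_half (by rw [hab, hac]; norm_num) (by rw [hbc, hac]; norm_num)
  have hc : c = a + (2 : ℝ) • (b - a) := by
    rw [hb, midpoint_eq_smul_add, smul_sub, smul_smul, invOf_eq_inv]
    norm_num
    rw [two_smul]
    abel
  have e1 : l • T a + l • T (b - a) = l • T b := by
    rw [← smul_add, ← map_add, add_sub_cancel]
  have e2 : l • T a + (2 : ℝ) • l • T (b - a) = l • T c := by
    conv_rhs => rw [hc]
    rw [map_add, map_smul, smul_add, smul_comm]
  refine ⟨l • T a, l • T (b - a), ?_, ?_⟩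
  · rw [norm_smul, T.norm_map, ← dist_eq_norm, dist_comm, hab, Real.norm_of_nonneg hl.le, mul_one]
  · rw [e1, e2]
    simpa only [ne_eq, hg] using hcol

end Pool.Agent.Results.MP_22634b_co.EverySpaceEveryScale
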